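import Mathlib
import Pool.Agent.Helper583.Words
import Pool.Agent.Helper583.Insep

set_option autoImplicit false

namespace Pool.Agent.Results.MP_720825_lc.Undecidable

open Pool.Agent.Helper583

universe u

/-- `Expressible G Bs A`: the word `A` is expressible in the words of the list `Bs` on the
group `G`. This is the smallest set of words that contains every variable, contains the word
`B(W_1, ..., W_k)` whenever `B` is in the list and the words substituted for the variables
of `B` are in the set, and is closed under identical equality on `G`. -/
inductive Expressible (G : Type u) [Group G] (Bs : List Word) : Word → Prop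
  | var (j : ℕ) : Expressible G Bs [(j, true)]
  | app (B : Word) (hB : B ∈ Bs) (W : ℕ → Word) (hW : ∀ p ∈ B, Expressible G Bs (W p.1)) :
      Expressible G Bs (wSubst W B)
  | congr (W W' : Word) (hW : Expressible G Bs W) (h : IdenticallyEqual G W W') :
      Expressible G Bs W'

theorem good_of_expressible {s : Type u} (α : Bool → s → s) (Bs : List Word)
    (hBs : ∀ B ∈ Bs, Good α B) {A : Word} (h : Expressible (Equiv.Perm (VV s)) Bs A) :
    Good α A := by
  induction h with
  | var j => exact Good.var α j
  | app B hB W _ ih => exact (hBs B hB).subst α W ih
  | congr W W' _ h ih => exact ih.congr α h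

/-- There is no algorithm that decides, given words `A, B_1, ..., B_n` with `n ≥ 1`, whether `A`
is expressible in `B_1, ..., B_n` on every group. -/
theorem result : ¬ ComputablePred fun p : Word × Word × List Word =>
    ∀ (G : Type u) [Group G], Expressible G (p.2.1 :: p.2.2) p.1 := by
  intro hP
  refine main_insep.{u}
    (fun A B Bs => ∀ (G : Type u) [Group G], Expressible G (B :: Bs) A) hP ?_ ?_
  · intro B Bs A h G _
    exact h G (Expressible G (B :: Bs))
      ⟨Expressible.var, fun B' hB' σ hσ => Expressible.app B' hB' σ fun p _ => hσ p.1,
        fun W W' hW hc => Expressible.congr W W' hW hc⟩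
  · intro s _ α B Bs A hB h
    exact good_of_expressible α (B :: Bs) hB (h (Equiv.Perm (VV s)))

end Pool.Agent.Results.MP_720825_lc.Undecidable
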